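import Pool.Agent.R893.UH.Main

/-!
# MP_b2f0ea_ag : unexpected hypersurfaces for points in linear general position (disproved)

`Z` is a finite set of points of `ℙ^4` on the cone over the nodal rational quintic
`(1 + t^5 : t : t^2 : t^4)` of `ℙ^3`.  The cubics through `Z` are cones with the same vertex and
there are at least five of them, so that one of them is singular at any given point, while a
double point of `ℙ^4` should impose five conditions.
-/

namespace Pool.Agent.Results.MP_b2f0ea_ag.ConeCubics

open Pool.Agent.R893.UH
open scoped LinearAlgebra.Projectivization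

/-- Over every algebraically closed field of characteristic zero there are `n ≥ 3`, a finite
non-degenerate set `Z ⊆ ℙ^n` in linear general position and `d ≥ 2` such that `Z` admits an
unexpected hypersurface of degree `d` with multiplicity `d - 1` at a general point
(namely `n = 4`, `d = 3`). -/
theorem result (k : Type*) [Field k] [IsAlgClosed k] [CharZero k] :
    ∃ n : ℕ, 3 ≤ n ∧ ∃ Z : Finset (ℙ k (Fin (n + 1) → k)),
      Nondegenerate Z ∧ LGP Z ∧ ∃ d : ℕ, 2 ≤ d ∧ AdmitsUnexpected Z d (d - 1) := by
  obtain ⟨Z, h1, h2, h3⟩ := main k
  exact ⟨4, by norm_num, Z, h1, h2, 3, by norm_num, h3⟩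

end Pool.Agent.Results.MP_b2f0ea_ag.ConeCubics
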